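import Pool.Agent.Helper13.HZ.U5b

/-!
# The section conjecture outside a fixed hypersurface of the space of superelliptic curves (block U5)

There is one nonzero polynomial with integral coefficients such that over every finitely generated field `F` of
characteristic zero, for all coefficients in `F` at which it does not vanish, the superelliptic curves
`y ^ n = f(x)` over `F(t₁, …, t_r)` satisfy the section conjecture for all `n` which do not divide `m`.
-/

universe u

namespace Pool.Agent.HZ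

open Polynomial Pool.Agent.LT Pool.Agent.HP Pool.Agent.GC

theorem goodCurve_F {F₀ k : Type u} [Field F₀] [CharZero F₀] [Field k] [Algebra F₀ k]
    (hF : ∃ S : Finset F₀, Subfield.closure (S : Set F₀) = ⊤) {r : ℕ}
    {t : Fin (r + 2) → k} (ht : AlgebraicIndependent F₀ t)
    (htop : IntermediateField.adjoin F₀ (Set.range t) = ⊤)
    {d m : ℕ} (hd : 3 ≤ d) {Ψ : MvPolynomial (Fin (d + 1) × Fin (m + 1)) ℤ}
    (hΨ : ∀ (F : Type u) [Field F] [CharZero F] (a : Fin (d + 1) × Fin (m + 1) → F),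
        MvPolynomial.aeval a Ψ ≠ 0 →
        (RR d (topPoly a)).natDegree = (2 * d - 1) * m ∧ (RR d (topPoly a)).Separable)
    (a : Fin (d + 1) × IdxR (r + 2) m → F₀)
    (ha : MvPolynomial.aeval (fun i : Fin (d + 1) × Fin (m + 1) => a (i.1, topIdx r i.2)) Ψ ≠ 0) :
    GoodCurve m d (curvePolF t a) := by
  obtain ⟨F, hFfg, htF, hTU, hTUtop⟩ := inf_coord hF ht htop
  have hF0 : CharZero F := charZero_of_injective_algebraMap (algebraMap F₀ F).injective
  have ht0 : t 0 ≠ 0 := ht.ne_zero 0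
  obtain ⟨f, hfd, hfT, hf0, hfg⟩ := exists_modelF (F := F) t ht0 (fun i => ⟨_, htF i⟩)
    (fun _ => rfl) (fun i => algebraMap F₀ F (a i))
  have ha' : MvPolynomial.aeval (fun i : Fin (d + 1) × Fin (m + 1) =>
      algebraMap F₀ F (a (i.1, topIdx r i.2))) Ψ ≠ 0 := by
    have h1 : MvPolynomial.aeval (fun i : Fin (d + 1) × Fin (m + 1) =>
        algebraMap F₀ F (a (i.1, topIdx r i.2))) Ψ =
        algebraMap F₀ F (MvPolynomial.aeval
          (fun i : Fin (d + 1) × Fin (m + 1) => a (i.1, topIdx r i.2)) Ψ) := by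
      have h2 := MvPolynomial.aeval_algebraMap_apply F
        (fun i : Fin (d + 1) × Fin (m + 1) => a (i.1, topIdx r i.2)) Ψ
      exact h2
    rw [h1]
    exact (_root_.map_ne_zero _).2 ha
  obtain ⟨h1, h2⟩ := hΨ F _ ha'
  have h3 : curvePolF (F := F) t (fun i => algebraMap F₀ F (a i)) = curvePolF t a :=
    curvePolF_map t a
  rw [h3] at hfg
  refine goodCurve_of hFfg hTU hTUtop hd hfd hfT ?_ ?_ (by rw [inv_inv]; exact hfg)
  · rw [hf0]; exact h1
  · rw [hf0]; exact h2

/-- **Block U5.** The section conjecture outside a fixed hypersurface. -/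
theorem exists_Psi_good {d m : ℕ} (hd : 3 ≤ d) (hm : 1 ≤ m) (r : ℕ) :
    ∃ Ψ : MvPolynomial (Fin (d + 1) × IdxR (r + 2) m) ℤ, Ψ ≠ 0 ∧
      ∀ (F₀ k : Type u) [Field F₀] [CharZero F₀] [Field k] [Algebra F₀ k],
        (∃ S : Finset F₀, Subfield.closure (S : Set F₀) = ⊤) →
        ∀ (t : Fin (r + 2) → k), AlgebraicIndependent F₀ t →
        IntermediateField.adjoin F₀ (Set.range t) = ⊤ →
        ∀ a : Fin (d + 1) × IdxR (r + 2) m → F₀, MvPolynomial.aeval a Ψ ≠ 0 →
          GoodCurve m d (curvePolF t a) := by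
  classical
  obtain ⟨Ψ, hΨ0, hΨ⟩ := exists_PsiF.{u} hd hm
  let j : Fin (d + 1) × Fin (m + 1) → Fin (d + 1) × IdxR (r + 2) m := fun i => (i.1, topIdx r i.2)
  have hj : Function.Injective j := by
    rintro ⟨i, q⟩ ⟨i', q'⟩ h
    have h1 := congrArg Prod.fst h
    have h2 := topIdx_injective r m (congrArg Prod.snd h)
    exact Prod.ext h1 h2
  refine ⟨MvPolynomial.rename j Ψ, ?_, ?_⟩
  · intro h0
    apply hΨ0
    apply MvPolynomial.rename_injective _ hj
    rw [h0, map_zero]
  · intro F₀ k _ _ _ _ hF t ht htop a ha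
    rw [MvPolynomial.aeval_rename] at ha
    exact goodCurve_F hF ht htop hd hΨ a ha

end Pool.Agent.HZ
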