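import Pool.Agent.Helper37.UL.Map
import Pool.Agent.Helper37.UL.Univ2
import Pool.Agent.Helper10.UL.ExGood
import Pool.Agent.Helper13.HZ.U5

/-!
# Transport of level one structures and of bounded data into the universal situation
-/

universe u v

namespace Pool.Agent.HZ

open Polynomial Pool.Agent.GC Pool.Agent.HP Pool.Agent.Helper37.UL Pool.Agent.Helper91.Sect UL

theorem fin_coordE {F₀ k : Type u} [Field F₀] [CharZero F₀] [Field k] [Algebra F₀ k] {r : ℕ}
    (hF : ∃ S : Finset F₀, Subfield.closure (S : Set F₀) = ⊤)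
    {t : Fin (r + 2) → k} (ht : AlgebraicIndependent F₀ t)
    (htop : IntermediateField.adjoin F₀ (Set.range t) = ⊤) :
    ∃ F : IntermediateField F₀ k,
      F = IntermediateField.adjoin F₀ (Set.range fun i : Fin r => t i.succ.succ) ∧
      (∃ S : Finset F, Subfield.closure (S : Set F) = ⊤) ∧
      (∀ i : Fin r, t i.succ.succ ∈ F) ∧ AlgebraicIndependent F ![t 0, t 1] ∧
      IntermediateField.adjoin F {t 0, t 1} = ⊤ := by
  classical
  set F := IntermediateField.adjoin F₀ (Set.range fun i : Fin r => t i.succ.succ) with hFdef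
  have hmem : ∀ i : Fin r, t i.succ.succ ∈ F := fun i =>
    IntermediateField.subset_adjoin _ _ ⟨i, rfl⟩
  have hind : AlgebraicIndependent F ![t 0, t 1] := by
    let φ : Fin 2 ⊕ Fin r → Fin (r + 2) :=
      Sum.elim (fun i => Fin.castLE (by omega) i) (fun i => i.succ.succ)
    have hφ : Function.Injective φ := by
      rintro (i | i) (j | j) hij
      · simp only [φ, Sum.elim_inl] at hij
        rw [Fin.castLE_injective _ hij]
      · simp only [φ, Sum.elim_inl, Sum.elim_inr] at hij
        have := congrArg Fin.val hij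
        simp only [Fin.val_castLE, Fin.val_succ] at this
        have := i.2
        omega
      · simp only [φ, Sum.elim_inl, Sum.elim_inr] at hij
        have := congrArg Fin.val hij
        simp only [Fin.val_castLE, Fin.val_succ] at this
        have := j.2
        omega
      · simp only [φ, Sum.elim_inr, Fin.succ_inj] at hij
        rw [hij]
    have h3 : AlgebraicIndependent F₀ (Sum.elim ![t 0, t 1] (fun i : Fin r => t i.succ.succ)) := by
      have h4 := ht.comp φ hφ
      have e : t ∘ φ = Sum.elim ![t 0, t 1] (fun i : Fin r => t i.succ.succ) := by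
        funext i
        rcases i with i | i
        · fin_cases i
          · rfl
          · rfl
        · rfl
      rw [← e]
      exact h4
    have h4 := (AlgebraicIndependent.sumElim_iff.1 h3).2
    exact IntermediateField.algebraicIndependent_adjoin_iff.2 h4
  refine ⟨F, hFdef, ?_, hmem, hind, ?_⟩
  · obtain ⟨S, hS⟩ := hF
    set S' : Finset F := S.image (algebraMap F₀ F) ∪
      Finset.univ.image (fun i : Fin r => (⟨t i.succ.succ, hmem i⟩ : F)) with hS'
    refine ⟨S', ?_⟩
    rw [eq_top_iff]
    intro z _
    set C := Subfield.closure (S' : Set F) with hC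
    have h0 : ∀ a : F₀, algebraMap F₀ F a ∈ C := by
      intro a
      have h1 : a ∈ Subfield.closure (S : Set F₀) := by rw [hS]; trivial
      have h2 : Subfield.closure (S : Set F₀) ≤ C.comap (algebraMap F₀ F) := by
        rw [Subfield.closure_le]
        intro b hb
        refine Subfield.subset_closure ?_
        rw [hS', Finset.coe_union]
        left
        rw [Finset.mem_coe, Finset.mem_image]
        exact ⟨b, hb, rfl⟩
      exact h2 h1
    have h1 : F ≤ Subfield.toIntermediateField (C.map F.val.toRingHom)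
        (fun x => ⟨algebraMap F₀ F x, h0 x, F.val.commutes x⟩) := by
      refine hFdef.le.trans ?_
      rw [IntermediateField.adjoin_le_iff]
      rintro _ ⟨i, rfl⟩
      refine ⟨⟨t i.succ.succ, hmem i⟩, Subfield.subset_closure ?_, rfl⟩
      rw [hS', Finset.coe_union]
      right
      rw [Finset.mem_coe, Finset.mem_image]
      exact ⟨i, Finset.mem_univ _, rfl⟩
    obtain ⟨w, hw, hw'⟩ := h1 z.2
    have h2 : w = z := Subtype.ext hw'
    rw [← h2]
    exact hw
  · rw [eq_top_iff]
    intro z _
    set M := IntermediateField.adjoin F {t 0, t 1} with hM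
    have n0 : t 0 ∈ M := IntermediateField.subset_adjoin _ _ (by simp)
    have n1 : t 1 ∈ M := IntermediateField.subset_adjoin _ _ (by simp)
    have h1 : IntermediateField.adjoin F₀ (Set.range t) ≤ M.restrictScalars F₀ := by
      rw [IntermediateField.adjoin_le_iff]
      rintro _ ⟨i, rfl⟩
      refine Fin.cases n0 (fun j => ?_) i
      refine Fin.cases (motive := fun j : Fin (r + 1) => t j.succ ∈ (M.restrictScalars F₀ : Set k))
        ?_ (fun j => ?_) j
      · rw [Fin.succ_zero_eq_one]
        exact n1
      · exact M.algebraMap_mem ⟨t j.succ.succ, hmem j⟩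
    have h2 : z ∈ IntermediateField.adjoin F₀ (Set.range t) := by rw [htop]; trivial
    exact h1 h2



/-- an embedding of the situation over `F₀(t)` into the universal one -/
structure Emb {C : Type} [Field C] {r : ℕ} (D : UnivD C r) {F₀ k Ck : Type u} [Field F₀] [Field k]
    [Algebra F₀ k] [Field Ck] [Algebra k Ck] (t : Fin (r + 2) → k) (ι : Ck →+* C) : Prop where
  base : ∀ x : F₀, ι (algebraMap k Ck (algebraMap F₀ k x)) ∈ D.Ω₀
  zero : ι (algebraMap k Ck (t 0)) = D.T
  one : ι (algebraMap k Ck (t 1)) = D.u
  rest : ∀ j : Fin r, ι (algebraMap k Ck (t j.succ.succ)) = D.w j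

theorem alg_map {C : Type u} {C' : Type v} [Field C] [Field C'] (ι : C →+* C') {L : Subfield C}
    {L' : Subfield C'} (h : ∀ x ∈ L, ι x ∈ L') {x : C} (hx : IsAlgebraic L x) :
    IsAlgebraic L' (ι x) := by
  obtain ⟨q, hq0, hq⟩ := hx
  let φ : L →+* L' := (ι.comp L.subtype).codRestrict L' fun x => h x x.2
  refine ⟨q.map φ, (Polynomial.map_ne_zero_iff φ.injective).2 hq0, ?_⟩
  rw [aeval_def, eval₂_map]
  have h1 := congrArg ι hq
  rw [map_zero, aeval_def, hom_eval₂] at h1
  exact h1

lemma mem_map_of_alg {K : Type u} [Field K] {C : Type v} [Field C] (ι : K →+* C)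
    {κ : Subfield K} (hcl : IsAlgClosed κ) {y : C} (hy : IsAlgebraic (κ.map ι) y) :
    y ∈ κ.map ι := by
  obtain ⟨n, q, hq, hq0, he⟩ := isAlgebraic_iff.mp hy
  choose s hs hsq using fun i => Subfield.mem_map.mp (hq i)
  let _ : Algebra κ C := (ι.comp κ.subtype).toAlgebra
  have halg : IsAlgebraic κ y := by
    refine ⟨∑ i : Fin (n + 1), Polynomial.C (⟨s i, hs i⟩ : κ) * Polynomial.X ^ (i : ℕ), ?_, ?_⟩
    · intro h0
      apply hq0
      funext i
      have h1 := congrArg (fun P => P.coeff (i : ℕ)) h0
      simp only [Polynomial.finsetSum_coeff, Polynomial.coeff_C_mul, Polynomial.coeff_X_pow,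
        Polynomial.coeff_zero] at h1
      rw [Finset.sum_eq_single i] at h1
      · rw [if_pos rfl, mul_one] at h1
        have h2 : s i = 0 := congrArg Subtype.val h1
        rw [← hsq i, h2]
        exact map_zero ι
      · intro j _ hj
        rw [if_neg (fun h => hj (Fin.ext h.symm)), mul_zero]
      · intro h
        exact absurd (Finset.mem_univ i) h
    · rw [← he]
      simp only [map_sum, map_mul, map_pow, Polynomial.aeval_C, Polynomial.aeval_X]
      refine Finset.sum_congr rfl fun i _ => ?_
      rw [← hsq i]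
      rfl
  have hint : IsIntegral κ y := halg.isIntegral
  have hdeg := IsAlgClosed.degree_eq_one_of_irreducible κ (minpoly.irreducible hint)
  obtain ⟨c, hc⟩ := minpoly.mem_range_of_degree_eq_one κ y hdeg
  exact Subfield.mem_map.mpr ⟨c, c.2, hc⟩

theorem transport {C : Type} [Field C] {r : ℕ} (D : UnivD C r)
    {F₀ k : Type u} [Field F₀] [CharZero F₀] [Field k] [Algebra F₀ k]
    (hF : ∃ S : Finset F₀, Subfield.closure (S : Set F₀) = ⊤) {t : Fin (r + 2) → k}
    (ht : AlgebraicIndependent F₀ t) (htop : IntermediateField.adjoin F₀ (Set.range t) = ⊤)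
    {ι : AlgebraicClosure k →+* C} (hι : Emb (F₀ := F₀) D t ι) {m d p : ℕ} (hd : 3 ≤ d)
    {B : ℕ}
    (hB : ∀ {F k C : Type u} [Field F] [CharZero F] [Field k] [Algebra F k] [Field C] [Algebra k C]
      [IsAlgClosure k C] (_ : ∃ S : Finset F, Subfield.closure (S : Set F) = ⊤)
      {T U : k} (_ : AlgebraicIndependent F ![T, U])
      (_ : IntermediateField.adjoin F {T, U} = ⊤)
      (κ : Subfield C) (_ : ∀ c : C, c ∈ κ ↔ IsAlgebraic
        (Subfield.closure (Set.range ((algebraMap k C).comp (algebraMap F k)) ∪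
          {algebraMap k C U})) c)
      (a : Fin (d + 1) → Fin (m + 1) → k) (_ : ∀ i l, a i l ∈ IntermediateField.adjoin F {U})
      {θ : Fin d → C} {z : Fin d → Fin d → C} {α : C}
      (_ : Lev (algebraMap k C).fieldRange p
        (fun i => algebraMap k C (∑ l, a i l * T ^ (l : ℕ))) θ z α)
      (_ : ∀ V : ValuationSubring C,
        HasPlaces (IsLocalRing.ResidueField (V.comap (algebraMap k C))) →
        ((p : ℕ) : IsLocalRing.ResidueField (V.comap (algebraMap k C))) ≠ 0 →
        GoodAt V (fun i => algebraMap k C (∑ l, a i l * T ^ (l : ℕ))) θ →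
        ∀ σ : C ≃+* C, Inert (algebraMap k C).fieldRange V σ →
          ∀ i j, i ≠ j → σ (z i j) = z i j)
      (i j : Fin d) (_ : i ≠ j),
      Data κ (Subfield.closure ((κ : Set C) ∪ {algebraMap k C T})) (algebraMap k C T) d p B
        (fun i l => algebraMap k C (a i l)) (θ i) (θ j) (z i j))
    (b : Fin (d + 1) × IdxR (r + 2) m → F₀)
    {θ : Fin d → AlgebraicClosure k} {z : Fin d → Fin d → AlgebraicClosure k}
    {α : AlgebraicClosure k}
    (hlev : Lev (algebraMap k (AlgebraicClosure k)).fieldRange p
      (fun i => algebraMap k (AlgebraicClosure k) (∑ l, cT (t 1) (fun j => t j.succ.succ)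
        (fun q => algebraMap F₀ k (b q)) i l * t 0 ^ (l : ℕ))) θ z α)
    (hin : ∀ V : ValuationSubring (AlgebraicClosure k),
        HasPlaces (IsLocalRing.ResidueField (V.comap (algebraMap k (AlgebraicClosure k)))) →
        ((p : ℕ) : IsLocalRing.ResidueField (V.comap (algebraMap k (AlgebraicClosure k)))) ≠ 0 →
        GoodAt V (fun i => algebraMap k (AlgebraicClosure k) (∑ l, cT (t 1)
          (fun j => t j.succ.succ) (fun q => algebraMap F₀ k (b q)) i l * t 0 ^ (l : ℕ))) θ →
        ∀ σ : AlgebraicClosure k ≃+* AlgebraicClosure k,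
          Inert (algebraMap k (AlgebraicClosure k)).fieldRange V σ →
          ∀ i j, i ≠ j → σ (z i j) = z i j) :
    Lev (gen D.Ω ![D.T, D.u]) p (fun i => ∑ e, cT D.u D.w
      (fun q => ι (algebraMap k _ (algebraMap F₀ k (b q)))) i e * D.T ^ (e : ℕ))
      (fun i => ι (θ i)) (fun i j => ι (z i j)) (ι α) ∧
    ∀ i j, i ≠ j → Data D.κ (gen D.κ ![D.T]) D.T d p B (fun i l => cT D.u D.w
      (fun q => ι (algebraMap k _ (algebraMap F₀ k (b q)))) i l) (ι (θ i)) (ι (θ j)) (ι (z i j)) := by
  classical
  obtain ⟨F, hFE, hFfg, htF, hTU, hTUtop⟩ := fin_coordE hF ht htop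
  have hF0 : CharZero F := charZero_of_injective_algebraMap (algebraMap F₀ F).injective
  have hk0 : CharZero k := charZero_of_injective_algebraMap (algebraMap F₀ k).injective
  have hC0 : CharZero (AlgebraicClosure k) :=
    charZero_of_injective_algebraMap (algebraMap k (AlgebraicClosure k)).injective
  let jj : k →+* C := ι.comp (algebraMap k (AlgebraicClosure k))
  have hj : ∀ x : k, ι (algebraMap k (AlgebraicClosure k) x) = jj x := fun x => rfl
  -- the image of `F` is in `Ω`
  have hFΩ : ∀ x ∈ F, jj x ∈ D.Ω := by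
    intro x hx
    rw [hFE] at hx
    have h1 : (IntermediateField.adjoin F₀ (Set.range fun i : Fin r => t i.succ.succ)).toSubfield ≤
        D.Ω.comap jj := by
      rw [IntermediateField.adjoin_toSubfield, Subfield.closure_le]
      rintro x (⟨y, rfl⟩ | ⟨i, rfl⟩)
      · exact D.le (hι.base y)
      · change jj (t i.succ.succ) ∈ D.Ω
        rw [← hj, hι.rest]
        exact D.hw i
    exact h1 hx
  have hTg : jj (t 0) = D.T := hι.zero
  have hUg : jj (t 1) = D.u := hι.one
  have hkg : ∀ x ∈ (algebraMap k (AlgebraicClosure k)).fieldRange,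
      ι x ∈ gen D.Ω ![D.T, D.u] := by
    rintro _ ⟨x, rfl⟩
    have h1 : (IntermediateField.adjoin F {t 0, t 1} : IntermediateField F k).toSubfield ≤
        (gen D.Ω ![D.T, D.u]).comap jj := by
      rw [IntermediateField.adjoin_toSubfield, Subfield.closure_le]
      rintro x (⟨y, rfl⟩ | hx)
      · exact le_gen (hFΩ _ y.2)
      · rcases hx with rfl | hx
        · change jj (t 0) ∈ gen D.Ω ![D.T, D.u]
          rw [hTg]
          exact gen_mem (τ := ![D.T, D.u]) 0
        · rw [Set.mem_singleton_iff] at hx
          subst hx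
          change jj (t 1) ∈ gen D.Ω ![D.T, D.u]
          rw [hUg]
          exact gen_mem (τ := ![D.T, D.u]) 1
    rw [hTUtop] at h1
    exact h1 (show x ∈ (⊤ : IntermediateField F k).toSubfield from trivial)
  -- the image of `Kap` is in `κ`
  set κk := Kap F k (AlgebraicClosure k) (t 1) with hκk
  have hmem : ∀ c, c ∈ κk ↔ IsAlgebraic (Subfield.closure (Set.range
      ((algebraMap k (AlgebraicClosure k)).comp (algebraMap F k)) ∪
        {algebraMap k (AlgebraicClosure k) (t 1)})) c := fun c => mem_Kap
  have hκ : ∀ x ∈ κk, ι x ∈ D.κ := by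
    intro x hx
    rw [hmem] at hx
    rw [D.hκalg]
    refine alg_map ι ?_ hx
    intro y hy
    have h1 : Subfield.closure (Set.range
        ((algebraMap k (AlgebraicClosure k)).comp (algebraMap F k)) ∪
        {algebraMap k (AlgebraicClosure k) (t 1)}) ≤ (gen D.Ω ![D.u]).comap ι := by
      rw [Subfield.closure_le, Set.union_subset_iff]
      refine ⟨?_, ?_⟩
      · rintro _ ⟨c, rfl⟩
        exact le_gen (hFΩ _ c.2)
      · rintro _ hx
        rw [Set.mem_singleton_iff.mp hx]
        change ι (algebraMap k (AlgebraicClosure k) (t 1)) ∈ gen D.Ω ![D.u]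
        rw [hι.one]
        exact gen_mem (τ := ![D.u]) 0
    exact h1 hy
  have hcoef : ∀ i l, ι (algebraMap k (AlgebraicClosure k) (cT (t 1) (fun j => t j.succ.succ)
      (fun q => algebraMap F₀ k (b q)) i l)) =
      cT D.u D.w (fun q => ι (algebraMap k _ (algebraMap F₀ k (b q)))) i (l : Fin (m + 1)) := by
    intro i l
    rw [hj, map_cT]
    have h1 : (fun j => jj (t j.succ.succ)) = D.w := by
      funext j
      exact hι.rest j
    rw [h1, hUg]
    rfl
  have hcm : ∀ i (l : Fin (m + 1)), cT (t 1) (fun j => t j.succ.succ)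
      (fun q => algebraMap F₀ k (b q)) i l ∈ IntermediateField.adjoin F {t 1} := by
    intro i l
    unfold cT wmon
    refine sum_mem fun q _ => ?_
    split_ifs
    · refine mul_mem (mul_mem ?_ (prod_mem fun j _ => ?_))
        (pow_mem (IntermediateField.mem_adjoin_simple_self F (t 1)) _)
      · exact IntermediateField.algebraMap_mem _ (algebraMap F₀ F (b (i, q)))
      · exact pow_mem (IntermediateField.algebraMap_mem _ (⟨t j.succ.succ, htF j⟩ : F)) _
    · exact zero_mem _
  constructor
  · have h1 := hlev.map ι hkg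
    simpa only [map_sum, map_mul, map_pow, hcoef, hι.zero] using h1
  · intro i j hij
    have h1 := hB hFfg hTU hTUtop κk hmem
      (fun i l => cT (t 1) (fun j => t j.succ.succ) (fun q => algebraMap F₀ k (b q)) i l)
      hcm hlev hin i j hij
    have hclκ : IsAlgClosed κk := kappa_closed hmem
    have hcoefκ : ∀ i (l : Fin (m + 1)), algebraMap k (AlgebraicClosure k)
        (cT (t 1) (fun j => t j.succ.succ) (fun q => algebraMap F₀ k (b q)) i l) ∈ κk :=
      fun i l => mem_kappa_of_adjoin hmem (hcm i l)
    have hroot := hlev.root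
    have hlead := hlev.lead
    have hex : ∃ t₀ ∈ κk, Good κk (fun i l => algebraMap k (AlgebraicClosure k)
        (cT (t 1) (fun j => t j.succ.succ) (fun q => algebraMap F₀ k (b q)) i
          (l : Fin (m + 1)))) t₀ := by
      refine exists_good (T := algebraMap k (AlgebraicClosure k) (t 0)) hclκ (by omega) hcoefκ ?_
        hlev.inj ?_
      · simpa only [map_sum, map_mul, map_pow] using hlead
      · intro j
        simpa only [map_sum, map_mul, map_pow] using hroot j
    have h2 := h1.map ι hκ (κ' := D.κ) (Kg' := gen D.κ ![D.T]) ?_ ?_ hcoefκ hex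
    · simpa only [hcoef, hι.zero] using h2
    · intro x hx
      have h3 : Subfield.closure ((κk : Set (AlgebraicClosure k)) ∪
          {algebraMap k (AlgebraicClosure k) (t 0)}) ≤ (gen D.κ ![D.T]).comap ι := by
        rw [Subfield.closure_le, Set.union_subset_iff]
        refine ⟨fun y hy => le_gen (hκ y hy), ?_⟩
        rintro _ hx
        rw [Set.mem_singleton_iff.mp hx]
        change ι (algebraMap k (AlgebraicClosure k) (t 0)) ∈ gen D.κ ![D.T]
        rw [hι.zero]
        exact gen_mem (τ := ![D.T]) 0
      exact h3 hx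
    · intro y hy
      exact mem_map_of_alg ι hclκ hy

end Pool.Agent.HZ
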