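import Pool.Agent.Helper10.UL.Final
import Pool.Agent.Helper37.UL.NoFamily2
import Pool.Agent.Helper37.UL.Univ2
import Pool.Agent.Helper13.HZ.U5
import Pool.Agent.Helper13.HZ.Transport

/-!
# No sections outside a fixed hypersurface of the space of superelliptic curves (block U6)
-/

universe u

namespace Pool.Agent.HZ

open Polynomial Pool.Agent.GC Pool.Agent.HP Pool.Agent.Helper37.UL Pool.Agent.Helper91.Sect UL

theorem coeff_curvePolF {F k : Type*} [Field F] [Field k] [Algebra F k] {r m d : ℕ}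
    (t : Fin (r + 2) → k) (a : Fin (d + 1) × IdxR (r + 2) m → F) (i : Fin (d + 1)) :
    (curvePolF t a).coeff i =
      ∑ l, cT (t 1) (fun j => t j.succ.succ) (fun q => algebraMap F k (a q)) i l * t 0 ^ (l : ℕ) := by
  rw [sum_cT]
  unfold curvePolF
  rw [finsetSum_coeff]
  simp only [coeff_C_mul_X_pow]
  rw [Finset.sum_eq_single i]
  · rw [if_pos rfl]
    refine Finset.sum_congr rfl fun p _ => ?_
    rw [prod_eq]
    ring
  · intro l _ hl
    rw [if_neg]
    intro h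
    exact hl (Fin.ext h.symm)
  · intro h; exact absurd (Finset.mem_univ _) h

/-- The bad vectors are zeros of one polynomial. -/
theorem exists_key_F {r d m : ℕ} (hd : 3 ≤ d) (hm : 1 ≤ m) {p : ℕ} (hp : p.Prime) (hpd : p ∣ d) :
    ∃ Ψ : MvPolynomial (Fin (d + 1) × IdxR (r + 2) m) ℤ, Ψ ≠ 0 ∧
      ∀ (F₀ k : Type u) [Field F₀] [CharZero F₀] [Field k] [Algebra F₀ k],
        (∃ S : Finset F₀, Subfield.closure (S : Set F₀) = ⊤) →
        ∀ (t : Fin (r + 2) → k), AlgebraicIndependent F₀ t →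
        IntermediateField.adjoin F₀ (Set.range t) = ⊤ →
        ∀ a : Fin (d + 1) × IdxR (r + 2) m → F₀, (curvePolF t a).natDegree = d →
          (curvePolF t a).Separable → SectionP p (curvePolF t a) →
          MvPolynomial.aeval a Ψ = 0 := by
  classical
  by_contra hcon
  push Not at hcon
  obtain ⟨C, _, _, _, D, hD⟩ := UL.exists_univ.{u} r
  obtain ⟨B, -, hB⟩ := exists_data.{u} d m p hp hd
  let J : Type := {Ψ : MvPolynomial (Fin (d + 1) × IdxR (r + 2) m) ℤ // Ψ ≠ 0}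
  have key : ∀ j : J, ∃ (b : Fin (d + 1) × IdxR (r + 2) m → C) (θ : Fin d → C)
      (z : Fin d → Fin d → C) (α : C), (∀ q, b q ∈ D.Ω₀) ∧ MvPolynomial.aeval b j.1 ≠ 0 ∧
      Lev (gen D.Ω ![D.T, D.u]) p (fun i : Fin (d + 1) =>
        ∑ e, cT D.u D.w b i e * D.T ^ (e : ℕ)) θ z α ∧
      ∀ i j, i ≠ j → Data D.κ (gen D.κ ![D.T]) D.T d p B
        (fun i l => cT D.u D.w b i l) (θ i) (θ j) (z i j) := by
    rintro ⟨Ψ, hΨ⟩
    obtain ⟨F₀, k, _, _, _, _, hF, t, ht, htop, a, h1, h2, ⟨K, _, _, x, y, hx, hxy, ⟨s⟩⟩, hne⟩ :=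
      hcon Ψ hΨ
    have hk0 : CharZero k := charZero_of_injective_algebraMap (algebraMap F₀ k).injective
    obtain ⟨ι, i1, i2, i3, i4⟩ := hD hF ht htop
    have hι : Emb (F₀ := F₀) D t ι := ⟨i1, i2, i3, i4⟩
    obtain ⟨θ, z, α, h3, h4⟩ := exists_lev hp hpd hd h2 h1 hx hxy s (AlgebraicClosure k)
    simp only [coeff_curvePolF] at h3 h4
    obtain ⟨h5, h6⟩ := transport D hF ht htop hι hd hB a h3 h4
    refine ⟨fun q => ι (algebraMap k _ (algebraMap F₀ k (a q))), _, _, _, fun q => hι.base _, ?_,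
      h5, h6⟩
    have h7 : MvPolynomial.aeval (fun q => ι (algebraMap k (AlgebraicClosure k)
        (algebraMap F₀ k (a q)))) Ψ = ι (algebraMap k (AlgebraicClosure k)
        (algebraMap F₀ k (MvPolynomial.aeval a Ψ))) := by
      let φ : F₀ →+* C := (ι.comp (algebraMap k (AlgebraicClosure k))).comp (algebraMap F₀ k)
      have h8 := MvPolynomial.map_aeval a φ Ψ
      rw [show ι (algebraMap k (AlgebraicClosure k) (algebraMap F₀ k (MvPolynomial.aeval a Ψ))) =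
        φ (MvPolynomial.aeval a Ψ) from rfl, h8]
      rw [MvPolynomial.aeval_def]
      congr 1
      exact RingHom.ext_int _ _
    rw [h7]
    exact (_root_.map_ne_zero _).2 ((_root_.map_ne_zero _).2 ((_root_.map_ne_zero _).2 hne))
  choose b θ z α hb hne hlev hdata using key
  exact no_family_open hp hd hm (J := J) (vv := b) (fun Ψ hΨ => ⟨⟨Ψ, hΨ⟩, hne ⟨Ψ, hΨ⟩⟩) hb D.le D.hΩ
    D.hκ D.hΩκ D.hTu D.hu D.hT D.hw D.hwu D.halg D.hκalg hlev hdata

/-- **The final theorem of the upgrade.** -/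
theorem no_sections_F (r : ℕ) {d m : ℕ} (hd : 3 ≤ d) (hm : 1 ≤ m) :
    ∃ Ψ : MvPolynomial (Fin (d + 1) × IdxR (r + 2) m) ℤ, Ψ ≠ 0 ∧
      ∀ (F₀ k : Type u) [Field F₀] [CharZero F₀] [Field k] [Algebra F₀ k],
        (∃ S : Finset F₀, Subfield.closure (S : Set F₀) = ⊤) →
        ∀ (t : Fin (r + 2) → k), AlgebraicIndependent F₀ t →
        IntermediateField.adjoin F₀ (Set.range t) = ⊤ →
        ∀ a : Fin (d + 1) × IdxR (r + 2) m → F₀, MvPolynomial.aeval a Ψ ≠ 0 →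
          HasNoSections d (curvePolF t a) ∧ GoodCurve m d (curvePolF t a) := by
  classical
  obtain ⟨Ψ₀, hΨ₀, h₀⟩ := exists_Psi_good.{u} hd hm r
  have key : ∀ p : ℕ, ∃ Ψ : MvPolynomial (Fin (d + 1) × IdxR (r + 2) m) ℤ, Ψ ≠ 0 ∧
      (p.Prime → p ∣ d →
      ∀ (F₀ k : Type u) [Field F₀] [CharZero F₀] [Field k] [Algebra F₀ k],
        (∃ S : Finset F₀, Subfield.closure (S : Set F₀) = ⊤) →
        ∀ (t : Fin (r + 2) → k), AlgebraicIndependent F₀ t →
        IntermediateField.adjoin F₀ (Set.range t) = ⊤ →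
        ∀ a : Fin (d + 1) × IdxR (r + 2) m → F₀, (curvePolF t a).natDegree = d →
          (curvePolF t a).Separable → SectionP p (curvePolF t a) →
          MvPolynomial.aeval a Ψ = 0) := by
    intro p
    by_cases hp : p.Prime
    · by_cases hpd : p ∣ d
      · obtain ⟨Ψ, h1, h2⟩ := exists_key_F.{u} (r := r) hd hm hp hpd
        exact ⟨Ψ, h1, fun _ _ => h2⟩
      · exact ⟨1, one_ne_zero, fun _ h => absurd h hpd⟩
    · exact ⟨1, one_ne_zero, fun h => absurd h hp⟩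
  choose Ψ hΨ0 hΨ using key
  refine ⟨Ψ₀ * ∏ p ∈ d.primeFactors, Ψ p,
    mul_ne_zero hΨ₀ (Finset.prod_ne_zero_iff.mpr fun p _ => hΨ0 p), ?_⟩
  intro F₀ k _ _ _ _ hF t ht htop a ha
  rw [map_mul] at ha
  have h1 := h₀ F₀ k hF t ht htop a (left_ne_zero_of_mul ha)
  refine ⟨hasNoSections_of h1.1 h1.2.1 fun p hp hpd hs => ?_, h1⟩
  apply right_ne_zero_of_mul ha
  rw [map_prod]
  exact Finset.prod_eq_zero (Nat.mem_primeFactors.mpr ⟨hp, hpd, by omega⟩)
    (hΨ p hp hpd F₀ k hF t ht htop a h1.1 h1.2.1 hs)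

end Pool.Agent.HZ
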