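import Pool.Agent.Helper13.HZ.U5a

/-!
# The model at infinity for coefficients in a field (block U5)
-/

universe u

namespace Pool.Agent.HZ

open Polynomial Pool.Agent.LT Pool.Agent.HP Pool.Agent.GC

private theorem topIdx_zero_h513 (r : ℕ) {m : ℕ} (q : Fin (m + 1)) :
    ((topIdx r q).1 0 : ℕ) = m - q := rfl

private theorem topIdx_one_h513 (r : ℕ) {m : ℕ} (q : Fin (m + 1)) :
    (topIdx r q).1 1 = q := by
  change (if (1 : Fin (r + 2)) = 0 then (⟨m - q, by omega⟩ : Fin (m + 1)) else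
    if (1 : Fin (r + 2)) = 1 then q else 0) = q
  rw [if_neg (by simp [Fin.ext_iff]), if_pos rfl]

private theorem topIdx_succ_h513 (r : ℕ) {m : ℕ} (q : Fin (m + 1)) (l : Fin r) :
    (topIdx r q).1 l.succ.succ = 0 := by
  change (if l.succ.succ = (0 : Fin (r + 2)) then (⟨m - q, by omega⟩ : Fin (m + 1)) else
    if l.succ.succ = (1 : Fin (r + 2)) then q else 0) = 0
  rw [if_neg (Fin.succ_ne_zero _), if_neg (by simp [Fin.ext_iff])]

private theorem sum_h513 {r m : ℕ} (p : IdxR (r + 2) m) :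
    (p.1 0 : ℕ) + ((p.1 1 : ℕ) + ∑ l : Fin r, (p.1 l.succ.succ : ℕ)) ≤ m := by
  have h1 := p.2
  rw [Fin.sum_univ_succ, Fin.sum_univ_succ] at h1
  exact h1

private theorem eq_topIdx_h513 {r m : ℕ} (p : IdxR (r + 2) m)
    (h : m - (p.1 0 : ℕ) - (p.1 1 : ℕ) = 0) : p = topIdx r (p.1 1) := by
  have h1 := sum_h513 p
  have h2 : ∑ l : Fin r, (p.1 l.succ.succ : ℕ) = 0 := by omega
  have h3 : ∀ l : Fin r, (p.1 l.succ.succ : ℕ) = 0 := fun l =>
    Finset.sum_eq_zero_iff.1 h2 l (Finset.mem_univ _)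
  apply Subtype.ext
  funext i
  refine Fin.cases ?_ (fun j => ?_) i
  · apply Fin.ext
    rw [topIdx_zero_h513]
    omega
  · refine Fin.cases ?_ (fun l => ?_) j
    · exact (topIdx_one_h513 r (p.1 1)).symm
    · rw [topIdx_succ_h513]
      exact Fin.ext (h3 l)

private theorem prod_h513 {k : Type u} [Field k] {r m : ℕ} (t : Fin (r + 2) → k)
    (p : IdxR (r + 2) m) : ∏ i, t i ^ (p.1 i : ℕ) =
      t 0 ^ (p.1 0 : ℕ) * (t 1 ^ (p.1 1 : ℕ) *
        ∏ i : Fin r, t i.succ.succ ^ (p.1 i.succ.succ : ℕ)) := by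
  rw [Fin.prod_univ_succ, Fin.prod_univ_succ]
  rfl

/-- The polynomial `∑_i (∑_p a (i, p) t ^ p) x ^ i` with coefficients `a` in a field. -/
noncomputable def curvePolF {F k : Type*} [Field F] [Field k] [Algebra F k] {r m d : ℕ}
    (t : Fin r → k) (a : Fin (d + 1) × IdxR r m → F) : k[X] :=
  ∑ i : Fin (d + 1), C (∑ p : IdxR r m, algebraMap F k (a (i, p)) * ∏ j, t j ^ (p.1 j : ℕ)) *
    X ^ (i : ℕ)

theorem curvePolF_map {F₀ F k : Type*} [Field F₀] [Field F] [Field k] [Algebra F₀ F]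
    [Algebra F k] [Algebra F₀ k] [IsScalarTower F₀ F k] {r m d : ℕ} (t : Fin r → k)
    (a : Fin (d + 1) × IdxR r m → F₀) :
    curvePolF t (fun i => algebraMap F₀ F (a i)) = curvePolF t a := by
  unfold curvePolF
  simp only [← IsScalarTower.algebraMap_apply F₀ F k]

theorem exists_modelF {F k : Type u} [Field F] [CharZero F] [Field k] [Algebra F k] {r m d : ℕ}
    (t : Fin (r + 2) → k) (ht0 : t 0 ≠ 0) (w : Fin r → F)
    (hw : ∀ i, algebraMap F k (w i) = t i.succ.succ) (a : Fin (d + 1) × IdxR (r + 2) m → F) :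
    ∃ f : F[X][X][X], f.natDegree ≤ d ∧ (∀ i, TD (f.coeff i) m) ∧
      f.map (mapRingHom (evalRingHom 0)) = topPoly (fun i => a (i.1, topIdx r i.2)) ∧
      C (t 0 ^ m) * f.map (ev F (t 0)⁻¹ (t 1 / t 0)) = curvePolF t a := by
  obtain ⟨c, hc⟩ : ∃ c : Fin (d + 1) × IdxR (r + 2) m → F, ∀ i p, c (i, p) = a (i, p) *
      ∏ l : Fin r, w l ^ (p.1 l.succ.succ : ℕ) := ⟨fun x => a (x.1, x.2) *
      ∏ l : Fin r, w l ^ (x.2.1 l.succ.succ : ℕ), fun i p => rfl⟩
  obtain ⟨G, hG⟩ : ∃ G : Fin (d + 1) → F[X][X], ∀ i, G i = ∑ p : IdxR (r + 2) m,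
      C (C (c (i, p)) * X ^ (m - (p.1 0 : ℕ) - (p.1 1 : ℕ))) * X ^ (p.1 1 : ℕ) :=
    ⟨_, fun i => rfl⟩
  have hGc : ∀ i j, (G i).coeff j = ∑ p : IdxR (r + 2) m,
      if j = (p.1 1 : ℕ) then C (c (i, p)) * X ^ (m - (p.1 0 : ℕ) - (p.1 1 : ℕ)) else 0 := by
    intro i j
    rw [hG, finsetSum_coeff]
    refine Finset.sum_congr rfl fun p _ => ?_
    rw [coeff_C_mul, coeff_X_pow]
    split_ifs
    · rw [mul_one]
    · rw [mul_zero]
  have hGT : ∀ i, TD (G i) m := by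
    intro i j hj
    rw [hGc] at hj ⊢
    obtain ⟨p, -, hp⟩ := Finset.exists_ne_zero_of_sum_ne_zero hj
    have hjm : j ≤ m := by
      by_cases h : j = (p.1 1 : ℕ)
      · have := (p.1 1).2
        omega
      · rw [if_neg h] at hp
        exact absurd rfl hp
    have h1 : (∑ p : IdxR (r + 2) m, if j = (p.1 1 : ℕ) then
        C (c (i, p)) * X ^ (m - (p.1 0 : ℕ) - (p.1 1 : ℕ)) else 0).natDegree ≤ m - j := by
      refine natDegree_sum_le_of_forall_le _ _ fun p _ => ?_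
      split_ifs with h
      · exact (natDegree_C_mul_X_pow_le _ _).trans (by omega)
      · rw [natDegree_zero]
        exact Nat.zero_le _
    omega
  refine ⟨∑ i : Fin (d + 1), C (G i) * X ^ (i : ℕ), ?_, ?_, ?_, ?_⟩
  · refine natDegree_sum_le_of_forall_le _ _ fun i _ => ?_
    exact (natDegree_C_mul_X_pow_le _ _).trans (by omega)
  · intro i
    by_cases hi : i < d + 1
    · have h1 : (∑ i : Fin (d + 1), C (G i) * X ^ (i : ℕ)).coeff i = G ⟨i, hi⟩ := by
        rw [finsetSum_coeff, Finset.sum_eq_single ⟨i, hi⟩]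
        · rw [coeff_C_mul, coeff_X_pow, if_pos rfl, mul_one]
        · intro j _ hj
          rw [coeff_C_mul, coeff_X_pow, if_neg, mul_zero]
          intro h
          exact hj (Fin.ext h.symm)
        · intro h
          exact absurd (Finset.mem_univ _) h
      rw [h1]
      exact hGT _
    · have h1 : (∑ i : Fin (d + 1), C (G i) * X ^ (i : ℕ)).coeff i = 0 := by
        rw [finsetSum_coeff]
        refine Finset.sum_eq_zero fun j _ => ?_
        rw [coeff_C_mul, coeff_X_pow, if_neg, mul_zero]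
        have := j.2
        omega
      rw [h1]
      intro j hj
      rw [coeff_zero] at hj
      exact absurd rfl hj
  · unfold topPoly
    rw [Polynomial.map_sum]
    refine Finset.sum_congr rfl fun i _ => ?_
    rw [Polynomial.map_mul, Polynomial.map_pow, map_X, map_C, hG, coe_mapRingHom,
      Polynomial.map_sum]
    congr 2
    obtain ⟨g, hg⟩ : ∃ g : IdxR (r + 2) m → F[X], ∀ p, g p = C (c (i, p) *
        0 ^ (m - (p.1 0 : ℕ) - (p.1 1 : ℕ))) * X ^ (p.1 1 : ℕ) := ⟨_, fun p => rfl⟩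
    have h1 : ∀ p : IdxR (r + 2) m, (C (C (c (i, p)) * X ^ (m - (p.1 0 : ℕ) - (p.1 1 : ℕ))) *
        X ^ (p.1 1 : ℕ) : F[X][X]).map (evalRingHom 0) = g p := by
      intro p
      rw [hg, Polynomial.map_mul, Polynomial.map_pow, map_X, map_C, coe_evalRingHom, eval_mul,
        eval_C, eval_pow, eval_X]
    rw [Finset.sum_congr rfl fun p _ => h1 p]
    have h2 : ∑ p : IdxR (r + 2) m, g p =
        ∑ p ∈ Finset.univ.image (topIdx r (m := m)), g p := by
      symm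
      refine Finset.sum_subset (Finset.subset_univ _) fun p _ hp => ?_
      rw [hg, zero_pow, mul_zero, C_0, zero_mul]
      intro h
      exact hp (Finset.mem_image.2 ⟨p.1 1, Finset.mem_univ _, (eq_topIdx_h513 p h).symm⟩)
    rw [h2, Finset.sum_image fun q _ q' _ h => topIdx_injective r m h]
    refine Finset.sum_congr rfl fun q _ => ?_
    have hq := q.2
    have h3 : ∏ l : Fin r, w l ^ (((topIdx r q).1 l.succ.succ : Fin (m + 1)) : ℕ) = 1 := by
      refine Finset.prod_eq_one fun l _ => ?_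
      rw [topIdx_succ_h513]
      exact pow_zero _
    rw [hg, topIdx_zero_h513, topIdx_one_h513, hc, h3, mul_one]
    have h4 : m - (m - (q : ℕ)) - (q : ℕ) = 0 := by omega
    rw [h4, pow_zero, mul_one]
  · unfold curvePolF
    rw [Polynomial.map_sum, Finset.mul_sum]
    refine Finset.sum_congr rfl fun i _ => ?_
    rw [Polynomial.map_mul, Polynomial.map_pow, map_X, map_C, ← mul_assoc, ← C_mul]
    congr 2
    unfold ev
    rw [hG, map_sum, Finset.mul_sum]
    refine Finset.sum_congr rfl fun p _ => ?_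
    rw [map_mul, map_pow, coe_eval₂RingHom, eval₂_C, eval₂_X]
    have h1 : (aeval (t 0)⁻¹ : F[X] →ₐ[F] k).toRingHom
        (C (c (i, p)) * X ^ (m - (p.1 0 : ℕ) - (p.1 1 : ℕ))) =
        algebraMap F k (c (i, p)) * (t 0)⁻¹ ^ (m - (p.1 0 : ℕ) - (p.1 1 : ℕ)) := by
      change aeval (t 0)⁻¹ (C (c (i, p)) * X ^ (m - (p.1 0 : ℕ) - (p.1 1 : ℕ))) = _
      rw [map_mul, map_pow, aeval_C, aeval_X]
    rw [h1, prod_h513, hc, map_mul, map_prod]
    have h2 : ∏ l : Fin r, algebraMap F k (w l ^ (p.1 l.succ.succ : ℕ)) =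
        ∏ l : Fin r, t l.succ.succ ^ (p.1 l.succ.succ : ℕ) :=
      Finset.prod_congr rfl fun l _ => by rw [map_pow, hw]
    rw [h2]
    have h3 := sum_h513 p
    obtain ⟨e, he⟩ : ∃ e, m = (p.1 0 : ℕ) + (p.1 1 : ℕ) + e :=
      ⟨m - (p.1 0 : ℕ) - (p.1 1 : ℕ), by omega⟩
    have h4 : m - (p.1 0 : ℕ) - (p.1 1 : ℕ) = e := by omega
    have h5 : t 0 ^ m * ((t 0)⁻¹ ^ e * (t 1 / t 0) ^ (p.1 1 : ℕ)) =
        t 0 ^ (p.1 0 : ℕ) * t 1 ^ (p.1 1 : ℕ) := by
      rw [div_pow, inv_pow]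
      have h6 : t 0 ^ m = t 0 ^ (p.1 0 : ℕ) * t 0 ^ (p.1 1 : ℕ) * t 0 ^ e := by
        rw [← pow_add, ← pow_add, ← he]
      rw [h6]
      field_simp
    rw [h4]
    calc t 0 ^ m * (algebraMap F k (a (i, p)) * (∏ l : Fin r, t l.succ.succ ^ (p.1 l.succ.succ : ℕ)) *
          (t 0)⁻¹ ^ e * (t 1 / t 0) ^ (p.1 1 : ℕ)) =
        algebraMap F k (a (i, p)) * (∏ l : Fin r, t l.succ.succ ^ (p.1 l.succ.succ : ℕ)) *
          (t 0 ^ m * ((t 0)⁻¹ ^ e * (t 1 / t 0) ^ (p.1 1 : ℕ))) := by ring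
      _ = _ := by rw [h5]; ring


end Pool.Agent.HZ
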